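import Pool.Agent.helper42.NS.Spec

/-!
# Row BOR: the characteristic polynomial of a bordered matrix
-/

namespace Pool.Agent.helper42.NS

open Polynomial Matrix

/-- the determinant of a bordered matrix -/
theorem BOR_det {R : Type} [CommRing R] [IsDomain R] {m : ℕ} (N : Matrix (Fin (m + 1)) (Fin (m + 1)) R)
    (M : Matrix (Fin m) (Fin m) R) (h : ∀ i j, N i.succ j.succ = M i j) (hM : M.det ≠ 0) :
    N.det = N 0 0 * M.det -
      (fun j => N 0 (Fin.succ j)) ⬝ᵥ M.adjugate.mulVec (fun i => N (Fin.succ i) 0) := by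
  obtain ⟨w, hw⟩ : ∃ w, w = M.adjugate.mulVec (fun i => N (Fin.succ i) 0) := ⟨_, rfl⟩
  rw [← hw]
  have hMw : ∀ i, ∑ j, M i j * w j = M.det * N (Fin.succ i) 0 := by
    intro i
    have h1 : M.mulVec w = M.det • (fun i => N (Fin.succ i) 0) := by
      rw [hw, Matrix.mulVec_mulVec, Matrix.mul_adjugate, Matrix.smul_mulVec, Matrix.one_mulVec]
    have h2 := congrFun h1 i
    exact h2
  obtain ⟨T, hT⟩ : ∃ T : Matrix (Fin (m + 1)) (Fin (m + 1)) R, T = Matrix.of
    (Fin.cons (Fin.cons M.det 0) fun i => Fin.cons (-(w i)) (fun j => if i = j then 1 else 0)) :=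
    ⟨_, rfl⟩
  have hT00 : T 0 0 = M.det := by rw [hT]; rfl
  have hT0s : ∀ j : Fin m, T 0 j.succ = 0 := by intro j; rw [hT]; rfl
  have hTs0 : ∀ i : Fin m, T i.succ 0 = -(w i) := by intro i; rw [hT]; rfl
  have hTss : ∀ i j : Fin m, T i.succ j.succ = if i = j then 1 else 0 := by intro i j; rw [hT]; rfl
  have hTdet : T.det = M.det := by
    rw [Matrix.det_succ_row_zero, Fin.sum_univ_succ, hT00]
    have h1 : ∑ j : Fin m, (-1 : R) ^ (j.succ : ℕ) * T 0 j.succ *
        (T.submatrix Fin.succ j.succ.succAbove).det = 0 :=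
      Finset.sum_eq_zero fun j _ => by rw [hT0s]; ring
    rw [h1, add_zero]
    have h2 : T.submatrix Fin.succ (Fin.succAbove 0) = 1 := by
      ext i j
      rw [Matrix.submatrix_apply, Fin.zero_succAbove, hTss, Matrix.one_apply]
    rw [h2, Matrix.det_one]
    simp
  have hNT00 : (N * T) 0 0 = N 0 0 * M.det - (fun j => N 0 (Fin.succ j)) ⬝ᵥ w := by
    rw [Matrix.mul_apply, Fin.sum_univ_succ, hT00, sub_eq_add_neg, dotProduct,
      ← Finset.sum_neg_distrib]
    exact congrArg (fun z => N 0 0 * M.det + z) (Finset.sum_congr rfl fun j _ => by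
      rw [hTs0]; ring)
  have hNTs0 : ∀ i : Fin m, (N * T) i.succ 0 = 0 := by
    intro i
    rw [Matrix.mul_apply, Fin.sum_univ_succ, hT00]
    have h1 : ∑ j : Fin m, N i.succ j.succ * T j.succ 0 = -∑ j, M i j * w j := by
      rw [← Finset.sum_neg_distrib]
      exact Finset.sum_congr rfl fun j _ => by rw [hTs0, h]; ring
    rw [h1, hMw]
    ring
  have hNTss : ∀ i j : Fin m, (N * T) i.succ j.succ = M i j := by
    intro i j
    rw [Matrix.mul_apply, Fin.sum_univ_succ, hT0s, mul_zero, zero_add]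
    have h1 : ∀ l : Fin m, N i.succ l.succ * T l.succ j.succ = if l = j then M i l else 0 := by
      intro l
      rw [hTss, h]
      split_ifs
      · rw [mul_one]
      · rw [mul_zero]
    rw [Finset.sum_congr rfl fun l _ => h1 l, Finset.sum_ite_eq' Finset.univ j]
    simp
  have hNTdet : (N * T).det = (N 0 0 * M.det - (fun j => N 0 (Fin.succ j)) ⬝ᵥ w) * M.det := by
    rw [Matrix.det_succ_column_zero, Fin.sum_univ_succ, hNT00]
    have h1 : ∑ i : Fin m, (-1 : R) ^ (i.succ : ℕ) * (N * T) i.succ 0 *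
        ((N * T).submatrix i.succ.succAbove Fin.succ).det = 0 :=
      Finset.sum_eq_zero fun j _ => by rw [hNTs0]; ring
    rw [h1, add_zero]
    have h2 : (N * T).submatrix (Fin.succAbove 0) Fin.succ = M := by
      ext i j
      rw [Matrix.submatrix_apply, Fin.zero_succAbove, hNTss]
    rw [h2]
    simp
  rw [Matrix.det_mul, hTdet] at hNTdet
  exact mul_right_cancel₀ hM hNTdet

/-- Row BOR. -/
theorem BOR : BOR_stmt := by
  intro m H v
  have h1 := BOR_det (Matrix.charmatrix (bord H v)) (Matrix.charmatrix H) (by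
    intro i j
    rw [Matrix.charmatrix_apply, Matrix.charmatrix_apply, bord_succ_succ]
    congr 1
    rw [Matrix.diagonal_apply, Matrix.diagonal_apply]
    simp) (Matrix.charpoly_monic H).ne_zero
  have h2 : Matrix.charmatrix (bord H v) 0 0 = X := by
    rw [Matrix.charmatrix_apply, bord_zero_zero]
    simp
  have h3 : ∀ j : Fin m, Matrix.charmatrix (bord H v) 0 j.succ = -C (v j) := by
    intro j
    rw [Matrix.charmatrix_apply, bord_zero_succ, Matrix.diagonal_apply_ne _ (Fin.succ_ne_zero j).symm,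
      zero_sub]
  have h4 : ∀ j : Fin m, Matrix.charmatrix (bord H v) j.succ 0 = -C (v j) := by
    intro j
    rw [Matrix.charmatrix_apply, bord_succ_zero, Matrix.diagonal_apply_ne _ (Fin.succ_ne_zero j),
      zero_sub]
  have h5 : (fun j : Fin m => Matrix.charmatrix (bord H v) 0 j.succ) = -fun j => C (v j) :=
    funext h3
  have h6 : (fun j : Fin m => Matrix.charmatrix (bord H v) j.succ 0) = -fun j => C (v j) :=
    funext h4
  rw [h2, h5, h6, Matrix.mulVec_neg, neg_dotProduct_neg] at h1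
  exact h1

end Pool.Agent.helper42.NS
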